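import Mathlib
import Pool.Agent.H964.LF.Stm

/-! Averages over nested dyadic cells (helper178 for helper964). -/

set_option autoImplicit false

namespace Pool.Agent.H178.LF

open Finset Pool.Agent.H964.LF

namespace DT2

variable {d : ℕ}

/-- the cube of side `L` at the origin -/
def R (d L : ℕ) : Finset (Site d) := Fintype.piFinset fun _ => Finset.range L

theorem mem_R {L : ℕ} {r : Site d} : r ∈ R d L ↔ ∀ j, r j < L := by
  unfold R
  rw [Fintype.mem_piFinset]
  simp only [Finset.mem_range]

/-- the sum over the cube with corner `a` -/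
noncomputable def A (L : ℕ) (g : Site d → ℝ) (a : Site d) : ℝ := ∑ r ∈ R d L, g (a + r)

theorem box_sum (L : ℕ) (g : Site d → ℝ) (a : Site d) (S : Finset (Site d))
    (hS : ∀ q, q ∈ S ↔ ∀ j, a j ≤ q j ∧ q j < a j + L) : ∑ q ∈ S, g q = A L g a := by
  unfold A
  symm
  refine Finset.sum_nbij (fun r => a + r) ?_ ?_ ?_ ?_
  · intro r hr
    rw [hS]
    intro j
    have := mem_R.1 hr j
    simp only [Pi.add_apply]
    omega
  · intro r _ r' _ h
    exact add_left_cancel h
  · intro q hq
    have hq' := (hS q).1 (Finset.mem_coe.1 hq)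
    refine ⟨fun j => q j - a j, ?_, ?_⟩
    · rw [Finset.mem_coe, mem_R]
      intro j
      have := hq' j
      show q j - a j < L
      omega
    · funext j
      have := hq' j
      show a j + (q j - a j) = q j
      omega
  · intro r _
    rfl

/-- the corners of the children -/
def base (L : ℕ) (C : Fin d → ℕ) (ε : Fin d → Bool) : Site d :=
  fun i => 2 * L * C i + (if ε i then L else 0)

/-- the variation in direction `i` -/
noncomputable def tvi (big : Finset (Site d)) (g : Site d → ℝ) (i : Fin d) : ℝ :=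
  ∑ q ∈ big, if sx q i ∈ big then |g (sx q i) - g q| else 0

theorem tvi_nonneg (big : Finset (Site d)) (g : Site d → ℝ) (i : Fin d) : 0 ≤ tvi big g i := by
  unfold tvi
  refine Finset.sum_nonneg fun q _ => ?_
  split_ifs
  · exact abs_nonneg _
  · exact le_refl _

theorem flip (L : ℕ) (C : Fin d → ℕ) (big : Finset (Site d))
    (hbig : ∀ q, q ∈ big ↔ ∀ j, 2 * L * C j ≤ q j ∧ q j < 2 * L * C j + 2 * L)
    (g : Site d → ℝ) (ε : Fin d → Bool) (i : Fin d) (hi : ε i = false) :
    |A L g (base L C (Function.update ε i true)) - A L g (base L C ε)| ≤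
      L * tvi big g i := by
  obtain ⟨P, hP⟩ : ∃ P : ℕ → Site d → Site d,
    P = fun s r => base L C ε + r + Pi.single i s := ⟨_, rfl⟩
  have hb : ∀ r : Site d, base L C (Function.update ε i true) + r = P L r := by
    intro r
    rw [hP]
    funext j
    by_cases hj : j = i
    · subst hj
      simp only [base, Pi.add_apply, Function.update_self, hi, Pi.single_eq_same]
      simp
      ring
    · simp only [base, Pi.add_apply, Function.update_of_ne hj, Pi.single_eq_of_ne hj]
      ring
  have h0 : ∀ r : Site d, base L C ε + r = P 0 r := by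
    intro r
    rw [hP]
    simp only
    rw [Pi.single_zero, add_zero]
  have hsx : ∀ s r, sx (P s r) i = P (s + 1) r := by
    intro s r
    rw [hP]
    unfold sx
    simp only
    rw [Pi.single_add, ← add_assoc]
  have hmem : ∀ s < L, ∀ r ∈ R d L, P s r ∈ big ∧ P (s + 1) r ∈ big := by
    intro s hs r hr
    have key : ∀ t ≤ s + 1, P t r ∈ big := by
      intro t ht
      rw [hbig, hP]
      intro j
      have hrj := mem_R.1 hr j
      by_cases hj : j = i
      · subst hj
        simp only [base, Pi.add_apply, hi, Pi.single_eq_same, Bool.false_eq_true, if_false]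
        constructor <;> omega
      · simp only [base, Pi.add_apply, Pi.single_eq_of_ne hj]
        split_ifs <;> constructor <;> omega
    exact ⟨key s (by omega), key (s + 1) le_rfl⟩
  have hinj : ∀ s r r', P s r = P s r' → r = r' := by
    intro s r r' h
    rw [hP] at h
    exact add_left_cancel (add_right_cancel h)
  clear hP
  have h1 : A L g (base L C (Function.update ε i true)) - A L g (base L C ε) =
      ∑ s ∈ Finset.range L, ∑ r ∈ R d L, (g (P (s + 1) r) - g (P s r)) := by
    rw [Finset.sum_comm]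
    unfold A
    rw [← Finset.sum_sub_distrib]
    refine Finset.sum_congr rfl fun r _ => ?_
    have h2 := Finset.sum_range_sub (fun s => g (P s r)) L
    rw [h2, hb, h0]
  rw [h1]
  have h2 : ∀ s ∈ Finset.range L, |∑ r ∈ R d L, (g (P (s + 1) r) - g (P s r))| ≤
      tvi big g i := by
    intro s hs
    rw [Finset.mem_range] at hs
    refine (Finset.abs_sum_le_sum_abs _ _).trans ?_
    obtain ⟨T, hT⟩ : ∃ T : Site d → ℝ,
      T = fun q => if sx q i ∈ big then |g (sx q i) - g q| else 0 := ⟨_, rfl⟩
    have hT0 : ∀ q, 0 ≤ T q := by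
      intro q
      rw [hT]
      simp only
      split_ifs
      · exact abs_nonneg _
      · exact le_refl _
    have e1 : ∑ r ∈ R d L, |g (P (s + 1) r) - g (P s r)| = ∑ r ∈ R d L, T (P s r) := by
      refine Finset.sum_congr rfl fun r hr => ?_
      have hm := (hmem s hs r hr).2
      rw [← hsx s r] at hm
      rw [hT]
      simp only
      rw [if_pos hm, hsx s r]
    have e2 : ∑ r ∈ R d L, T (P s r) = ∑ q ∈ (R d L).image (P s), T q := by
      rw [Finset.sum_image]
      intro r _ r' _ h
      exact hinj s r r' h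
    have e3 : tvi big g i = ∑ q ∈ big, T q := by
      rw [hT]
      rfl
    rw [e1, e2, e3]
    refine Finset.sum_le_sum_of_subset_of_nonneg ?_ (fun q _ _ => hT0 q)
    intro q hq
    obtain ⟨r, hr, rfl⟩ := Finset.mem_image.1 hq
    exact (hmem s hs r hr).1
  refine (Finset.abs_sum_le_sum_abs _ _).trans ?_
  refine (Finset.sum_le_sum h2).trans ?_
  rw [Finset.sum_const, Finset.card_range, nsmul_eq_mul]

theorem flip' (L : ℕ) (C : Fin d → ℕ) (big : Finset (Site d))
    (hbig : ∀ q, q ∈ big ↔ ∀ j, 2 * L * C j ≤ q j ∧ q j < 2 * L * C j + 2 * L)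
    (g : Site d → ℝ) (ε : Fin d → Bool) (i : Fin d) (b : Bool) :
    |A L g (base L C (Function.update ε i b)) - A L g (base L C ε)| ≤
      L * tvi big g i := by
  have h0 : 0 ≤ L * tvi big g i := mul_nonneg (Nat.cast_nonneg _) (tvi_nonneg _ _ _)
  by_cases hb : b = ε i
  · rw [hb, Function.update_eq_self, sub_self, abs_zero]
    exact h0
  · cases hε : ε i with
    | false =>
      have : b = true := by
        rw [hε] at hb
        cases b
        · exact absurd rfl hb
        · rfl
      rw [this]
      exact flip L C big hbig g ε i hε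
    | true =>
      have hbf : b = false := by
        rw [hε] at hb
        cases b
        · rfl
        · exact absurd rfl hb
      rw [hbf]
      have h1 := flip L C big hbig g (Function.update ε i false) i (Function.update_self _ _ _)
      rw [Function.update_idem, ← hε, Function.update_eq_self, abs_sub_comm] at h1
      exact h1

theorem hybrid (L : ℕ) (C : Fin d → ℕ) (big : Finset (Site d))
    (hbig : ∀ q, q ∈ big ↔ ∀ j, 2 * L * C j ≤ q j ∧ q j < 2 * L * C j + 2 * L)
    (g : Site d → ℝ) (ε ε' : Fin d → Bool) (S : Finset (Fin d)) :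
    |A L g (base L C (fun i => if i ∈ S then ε' i else ε i)) - A L g (base L C ε)| ≤
      ∑ i ∈ S, L * tvi big g i := by
  induction S using Finset.induction_on with
  | empty => simp
  | insert i S hi ih =>
    have he : (fun j => if j ∈ insert i S then ε' j else ε j) =
        Function.update (fun j => if j ∈ S then ε' j else ε j) i (ε' i) := by
      funext j
      by_cases hj : j = i
      · subst hj
        rw [Function.update_self, if_pos (Finset.mem_insert_self _ _)]
      · rw [Function.update_of_ne hj]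
        by_cases hjS : j ∈ S
        · rw [if_pos (Finset.mem_insert_of_mem hjS), if_pos hjS]
        · rw [if_neg (by rw [Finset.mem_insert]; tauto), if_neg hjS]
    rw [he, Finset.sum_insert hi]
    have h1 := flip' L C big hbig g (fun j => if j ∈ S then ε' j else ε j) i (ε' i)
    have h2 := abs_sub_le
      (A L g (base L C (Function.update (fun j => if j ∈ S then ε' j else ε j) i (ε' i))))
      (A L g (base L C (fun j => if j ∈ S then ε' j else ε j))) (A L g (base L C ε))
    linarith

theorem compare (L : ℕ) (C : Fin d → ℕ) (big : Finset (Site d))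
    (hbig : ∀ q, q ∈ big ↔ ∀ j, 2 * L * C j ≤ q j ∧ q j < 2 * L * C j + 2 * L)
    (g : Site d → ℝ) (ε ε' : Fin d → Bool) :
    |A L g (base L C ε') - A L g (base L C ε)| ≤ L * ∑ i, tvi big g i := by
  have h := hybrid L C big hbig g ε ε' Finset.univ
  simp only [Finset.mem_univ, if_true] at h
  rw [Finset.mul_sum]
  exact h

theorem sum_big (L : ℕ) (C : Fin d → ℕ) (big : Finset (Site d))
    (hbig : ∀ q, q ∈ big ↔ ∀ j, 2 * L * C j ≤ q j ∧ q j < 2 * L * C j + 2 * L)
    (g : Site d → ℝ) :
    ∑ q ∈ big, g q = ∑ ε : Fin d → Bool, A L g (base L C ε) := by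
  rw [← Finset.sum_fiberwise big (fun q => fun i => decide (2 * L * C i + L ≤ q i)) g]
  refine Finset.sum_congr rfl fun ε _ => ?_
  apply box_sum
  intro q
  rw [Finset.mem_filter, hbig]
  constructor
  · rintro ⟨h1, h2⟩ j
    have h3 := h1 j
    have h4 := congrFun h2 j
    simp only [base]
    by_cases h5 : 2 * L * C j + L ≤ q j
    · have h6 : ε j = true := by rw [← h4]; exact decide_eq_true h5
      rw [if_pos h6]
      omega
    · have h6 : ¬ ε j = true := by
        rw [← h4]
        intro h7
        exact h5 (of_decide_eq_true h7)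
      rw [if_neg h6]
      omega
  · intro h
    refine ⟨fun j => ?_, ?_⟩
    · have := h j
      simp only [base] at this
      split_ifs at this <;> omega
    · funext j
      have := h j
      simp only [base] at this
      cases hε : ε j with
      | false =>
        rw [hε] at this
        simp only [Bool.false_eq_true, if_false] at this
        rw [decide_eq_false_iff_not]
        omega
      | true =>
        rw [hε] at this
        simp only [if_true] at this
        rw [decide_eq_true_iff]
        omega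

theorem mem_cells (J ℓ m : ℕ) (hlm : ℓ ≤ m) (hmJ : m ≤ J) (k : Site d) (hk : k ∈ Grid d J)
    (q : Site d) : q ∈ cells J ℓ m k ↔
      ∀ j, 2 ^ (m - ℓ) * (k j / 2 ^ m) ≤ q j ∧
        q j < 2 ^ (m - ℓ) * (k j / 2 ^ m) + 2 ^ (m - ℓ) := by
  have hk' : ∀ j, k j < 2 ^ J := by
    intro j
    unfold Grid at hk
    rw [Fintype.mem_piFinset] at hk
    exact Finset.mem_range.1 (hk j)
  unfold cells Grid
  rw [Finset.mem_filter, Fintype.mem_piFinset]
  have hLpos : 0 < 2 ^ (m - ℓ) := by positivity
  have hiff : ∀ j, q j / 2 ^ (m - ℓ) = k j / 2 ^ m ↔ (2 ^ (m - ℓ) * (k j / 2 ^ m) ≤ q j ∧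
        q j < 2 ^ (m - ℓ) * (k j / 2 ^ m) + 2 ^ (m - ℓ)) := by
    intro j
    constructor
    · intro h
      rw [← h]
      have h1 := Nat.div_add_mod (q j) (2 ^ (m - ℓ))
      have h2 := Nat.mod_lt (q j) hLpos
      omega
    · rintro ⟨h1, h2⟩
      apply Nat.div_eq_of_lt_le
      · rw [mul_comm]; exact h1
      · rw [Nat.succ_mul, mul_comm]; exact h2
  constructor
  · rintro ⟨_, h⟩ j
    exact (hiff j).1 (h j)
  · intro h
    refine ⟨fun j => ?_, fun j => (hiff j).2 (h j)⟩
    rw [Finset.mem_range]
    have h1 := (h j).2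
    have h2 : k j / 2 ^ m < 2 ^ (J - m) := by
      apply Nat.div_lt_of_lt_mul
      rw [← pow_add]
      have : m + (J - m) = J := by omega
      rw [this]
      exact hk' j
    have h3 : 2 ^ (m - ℓ) * (k j / 2 ^ m + 1) ≤ 2 ^ (m - ℓ) * 2 ^ (J - m) :=
      Nat.mul_le_mul_left _ h2
    rw [← pow_add] at h3
    have h4 : m - ℓ + (J - m) = J - ℓ := by omega
    rw [h4] at h3
    rw [mul_add, mul_one] at h3
    omega

end DT2

open DT2 in
theorem t_DT2 : S_DT2 := by
  intro d J ℓ m k g hd hlm hmJ hk
  obtain ⟨L, hL⟩ : ∃ L, L = 2 ^ (m - ℓ) := ⟨_, rfl⟩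
  obtain ⟨C, hC⟩ : ∃ C : Fin d → ℕ, C = fun j => k j / 2 ^ (m + 1) := ⟨_, rfl⟩
  have hL2 : 2 ^ (m + 1 - ℓ) = 2 * L := by
    rw [hL, show m + 1 - ℓ = (m - ℓ) + 1 by omega, pow_succ, mul_comm]
  have hbig : ∀ q, q ∈ cells J ℓ (m + 1) k ↔
      ∀ j, 2 * L * C j ≤ q j ∧ q j < 2 * L * C j + 2 * L := by
    intro q
    rw [mem_cells J ℓ (m + 1) (by omega) hmJ k hk q, hL2, hC]
  -- the small cell
  obtain ⟨ε0, hε0⟩ : ∃ ε0 : Fin d → Bool, ε0 = fun j => decide (k j / 2 ^ m % 2 = 1) := ⟨_, rfl⟩
  have hsmall : ∑ q ∈ cells J ℓ m k, g q = A L g (base L C ε0) := by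
    apply box_sum
    intro q
    rw [mem_cells J ℓ m hlm (by omega) k hk q, ← hL]
    have hb : ∀ j, L * (k j / 2 ^ m) = base L C ε0 j := by
      intro j
      have h1 : C j = (k j / 2 ^ m) / 2 := by
        rw [hC, Nat.div_div_eq_div_mul, pow_succ]
      have h2 : k j / 2 ^ m = 2 * C j + (if ε0 j then 1 else 0) := by
        rw [hε0, h1]
        simp only
        by_cases h3 : k j / 2 ^ m % 2 = 1
        · simp only [h3, decide_true, if_true]
          omega
        · simp only [h3, decide_false, Bool.false_eq_true, if_false]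
          omega
      rw [h2]
      simp only [base]
      split_ifs
      · ring
      · ring
    constructor
    · intro h j
      rw [← hb j]
      exact h j
    · intro h j
      rw [hb j]
      exact h j
  have htv : tv J ℓ (m + 1) k g = ∑ i, tvi (cells J ℓ (m + 1) k) g i := by
    unfold tv tvi
    exact Finset.sum_comm
  have hsum := sum_big L C (cells J ℓ (m + 1) k) hbig g
  unfold avc
  rw [hsum, hsmall, htv]
  obtain ⟨T, hT⟩ : ∃ T, T = ∑ i, tvi (cells J ℓ (m + 1) k) g i := ⟨_, rfl⟩
  have hcmp : ∀ ε, |A L g (base L C ε0) - A L g (base L C ε)| ≤ L * T := by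
    intro ε
    rw [hT]
    exact compare L C _ hbig g ε ε0
  rw [← hT]
  obtain ⟨D, hD⟩ : ∃ D : ℝ, D = 2 ^ (d * (m - ℓ)) := ⟨_, rfl⟩
  have hDpos : 0 < D := by rw [hD]; positivity
  have hD2 : (2 : ℝ) ^ (d * (m + 1 - ℓ)) = 2 ^ d * D := by
    rw [hD, ← pow_add]
    congr 1
    rw [show m + 1 - ℓ = (m - ℓ) + 1 by omega]
    ring
  have hLr : ((2 : ℝ) ^ (m - ℓ)) = (L : ℝ) := by rw [hL]; push_cast; rfl
  rw [hD2, ← hD, hLr]
  have h2d : (0 : ℝ) < 2 ^ d := by positivity
  have hcard : (∑ _ε : Fin d → Bool, (1 : ℝ)) = 2 ^ d := by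
    rw [Finset.sum_const, Finset.card_univ, Fintype.card_fun, Fintype.card_bool,
      Fintype.card_fin, nsmul_eq_mul]
    push_cast
    ring
  have e1 : A L g (base L C ε0) / D - (∑ ε : Fin d → Bool, A L g (base L C ε)) / (2 ^ d * D) =
      (∑ ε : Fin d → Bool, (A L g (base L C ε0) - A L g (base L C ε))) / (2 ^ d * D) := by
    rw [Finset.sum_sub_distrib]
    have : ∑ _ε : Fin d → Bool, A L g (base L C ε0) = 2 ^ d * A L g (base L C ε0) := by
      rw [← hcard, Finset.sum_mul]
      refine Finset.sum_congr rfl fun _ _ => ?_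
      rw [one_mul]
    rw [this]
    field_simp
  rw [e1, abs_div, abs_of_pos (mul_pos h2d hDpos)]
  rw [div_le_iff₀ (mul_pos h2d hDpos)]
  calc |∑ ε : Fin d → Bool, (A L g (base L C ε0) - A L g (base L C ε))|
      ≤ ∑ ε : Fin d → Bool, |A L g (base L C ε0) - A L g (base L C ε)| :=
        Finset.abs_sum_le_sum_abs _ _
    _ ≤ ∑ _ε : Fin d → Bool, L * T := Finset.sum_le_sum fun ε _ => hcmp ε
    _ = 2 ^ d * (L * T) := by
        rw [← hcard, Finset.sum_mul]
        refine Finset.sum_congr rfl fun _ _ => ?_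
        rw [one_mul]
    _ = L / D * T * (2 ^ d * D) := by
        field_simp

end Pool.Agent.H178.LF
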